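import Pool.Agent.MP_cce4c9_lc.H87.SpecQ

/-! Unramified rational points correspond to fixed places. -/

set_option autoImplicit false

open WithZero Polynomial Finset

namespace Pool.Agent.MP_cce4c9_lc.H53

open H87 H87.Cv

variable {k : Type} [Field k] {d m : ℕ} {f : k[X]} {C : Cv k d m f}

/-- The point under a place. -/
noncomputable def pt (C : Cv k d m f) (v : Place k C.Q) : Fin m → k := fun i => v.ev (C.x i)

theorem ex_lt {a : Fin m → k} {i : ℕ} (hi : i < m) : ex a i = a ⟨i, hi⟩ := dif_pos hi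

theorem pt_eq {v : Place k C.Q} {a : Fin m → k} (h : C.At v (ex a)) : pt C v = a := by
  funext i
  have := h i i.2
  rw [ex_lt i.2] at this
  exact v.ev_eq this

theorem at_pt (hH : C.HA) {v : Place k C.Q} (hv : v.val C.t ≤ 1) : C.At v (ex (pt C v)) :=
  fun i hi => by
    rw [ex_lt hi]
    exact hH.at_ev v hv i hi

theorem at_frob {q : ℕ} {σ : C.Aut} (hσ : IsFrob q σ.1) {v : Place k C.Q} {a : ℕ → k}
    (h : C.At v a) : C.At (σ.1 • v) fun i => a i ^ q := fun i hi => by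
  have := h i hi
  rw [← smul_val_apply σ.1 v, map_sub, σ.2.2.2 i hi, hσ] at this
  exact this

theorem prod_ex (g : k[X]) (a : Fin m → k) :
    ∏ i ∈ range m, g.eval (ex a i) = ∏ i, g.eval (a i) := by
  rw [Finset.prod_range]
  exact Finset.prod_congr rfl fun i _ => by rw [ex_lt i.2]

theorem ex_on (C : Cv k d m f) {a : Fin m → k} (h : ∀ i j, f.eval (a i) = f.eval (a j)) :
    ∀ i < m, f.eval (ex a i) = f.eval (ex a 0) := fun i hi => by
  rw [ex_lt hi, ex_lt C.hm]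
  exact h _ _

theorem uniq (hL : C.LO) {a : Fin m → k} (h : ∀ i j, f.eval (a i) = f.eval (a j))
    (h0 : ∏ i, (derivative f).eval (a i) ≠ 0) :
    ∃ v, C.At v (ex a) ∧ ∀ w, C.At w (ex a) → w = v := by
  obtain ⟨v, hv, hu, -⟩ := hL (ex a) (fun i => ((derivative f).eval (ex a i))⁻¹) fun i hi =>
    ⟨ex_on C h i hi, inv_mul_cancel₀ (by
      rw [ex_lt hi]
      exact Finset.prod_ne_zero_iff.1 h0 _ (Finset.mem_univ _))⟩
  exact ⟨v, hv, hu⟩

theorem on_of_at (hH : C.HA) {v : Place k C.Q} {a : Fin m → k} (h : C.At v (ex a)) (i j : Fin m) :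
    f.eval (a i) = f.eval (a j) := by
  have h1 := (hH.atT v _ h).2.2.2
  have hi := h1 i i.2
  have hj := h1 j j.2
  rw [ex_lt i.2] at hi
  rw [ex_lt j.2] at hj
  exact hi.trans hj.symm

theorem bad_iff (hH : C.HA) {v : Place k C.Q} {a : Fin m → k} (h : C.At v (ex a)) :
    C.Bad v ↔ ∏ i, (derivative f).eval (a i) = 0 := by
  obtain ⟨h1, -, h2, -⟩ := hH.atT v _ h
  rw [prod_ex] at h2
  refine ⟨fun hb => ?_, fun h0 => ⟨h1, by simpa [h0] using h2⟩⟩
  by_contra h0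
  exact absurd (near_one h0 h2) hb.2.ne

theorem bad_finite (q : ℕ) (hH : C.HA) (hP : C.PL) : (badQ f m q).Finite := by
  refine (hH.bad.1.image (pt C)).subset fun a ha => ?_
  obtain ⟨v, hv⟩ := hP (ex a) (ex_on C ha.1.1)
  exact ⟨v, (bad_iff hH hv).2 ha.2, pt_eq hv⟩

theorem bij {q : ℕ} {σ : C.Aut} (hσ : IsFrob q σ.1) (hH : C.HA) (hL : C.LO) :
    Set.BijOn (pt C) ({v : Place k C.Q | σ.1 • v = v} \
      {v : Place k C.Q | (C.Bad v ∨ 1 < v.val C.t) ∧ σ.1 • v = v})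
      (ptsQ f m q \ badQ f m q) := by
  have key : ∀ v ∈ ({v : Place k C.Q | σ.1 • v = v} \
      {v : Place k C.Q | (C.Bad v ∨ 1 < v.val C.t) ∧ σ.1 • v = v}),
      C.At v (ex (pt C v)) ∧ ∏ i, (derivative f).eval (pt C v i) ≠ 0 := fun v hv => by
    have h1 : ¬ (C.Bad v ∨ 1 < v.val C.t) := fun h => hv.2 ⟨h, hv.1⟩
    rw [not_or, not_lt] at h1
    have h2 := at_pt hH h1.2
    exact ⟨h2, fun h => h1.1 ((bad_iff hH h2).2 h)⟩
  refine ⟨fun v hv => ?_, fun v hv w hw e => ?_, fun a ha => ?_⟩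
  · obtain ⟨h1, h2⟩ := key v hv
    refine ⟨⟨on_of_at hH h1, fun i => ?_⟩, fun h => h2 h.2⟩
    have h3 := at_frob hσ h1 i i.2
    rw [show σ.1 • v = v from hv.1] at h3
    have h4 := v.const_eq h3 (h1 i i.2)
    simpa only [ex_lt i.2] using h4
  · obtain ⟨h1, h2⟩ := key v hv
    obtain ⟨h3, -⟩ := key w hw
    obtain ⟨u, -, hu⟩ := uniq hL (on_of_at hH h1) h2
    rw [← e] at h3
    exact (hu v h1).trans (hu w h3).symm
  · have h0 : ∏ i, (derivative f).eval (a i) ≠ 0 := fun h => ha.2 ⟨ha.1, h⟩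
    obtain ⟨v, hv, hu⟩ := uniq hL ha.1.1 h0
    refine ⟨v, ⟨hu _ fun i hi => ?_, fun h => ?_⟩, pt_eq hv⟩
    · have h3 := at_frob hσ hv i hi
      simp only [ex_lt hi] at h3 ⊢
      rwa [ha.1.2] at h3
    · rcases h.1 with h1 | h1
      · exact h0 ((bad_iff hH hv).1 h1)
      · exact absurd (hH.atT v _ hv).1 (not_le.2 h1)

theorem cnt : StmtCNT := by
  intro k _ _ d m q f C σ hσ _ hH hP hL hF
  have hb := bij hσ hH hL
  have hB := bad_finite q hH hP
  have hs : {v : Place k C.Q | (C.Bad v ∨ 1 < v.val C.t) ∧ σ.1 • v = v} ⊆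
      {v : Place k C.Q | σ.1 • v = v} := fun v hv => hv.2
  have hs' : badQ f m q ⊆ ptsQ f m q := fun a ha => ha.1
  have hD : (ptsQ f m q \ badQ f m q).Finite := by
    rw [← hb.image_eq]
    exact (hF.subset Set.sdiff_subset).image _
  have hT : (ptsQ f m q).Finite := by
    rw [← Set.sdiff_union_of_subset hs']
    exact hD.union hB
  have e1 := Set.ncard_sdiff_add_ncard_of_subset hs hF
  have e2 := Set.ncard_sdiff_add_ncard_of_subset hs' hT
  have e3 := hb.ncard_eq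
  omega

end Pool.Agent.MP_cce4c9_lc.H53
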